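import Pool.Agent.H458.AR.Fld

/-!
# Part CHR (project AR of helper458): the characteristic polynomial of `G⁻¹ B`
-/

set_option autoImplicit false

open IsDedekindDomain NumberField Matrix Polynomial
open scoped Classical

namespace Pool.Agent.H784.AR458

open Pool.Agent.N922.PQ Pool.Agent.H458.AR

variable {L : Type} [Field L] [NumberField L] {a b : ℤ} {θ : L}

/-- the coordinates in the basis `1, θ, θ²` -/
theorem co_eq (h : IsCub a b θ) (r s t : ℚ) :
    h.co 1 ((r : L) + (s : L) * θ + (t : L) * θ ^ 2) = s ∧ h.co 2 ((r : L) + (s : L) * θ + (t : L) * θ ^ 2) = t := by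
  have e : ((r : L) + (s : L) * θ + (t : L) * θ ^ 2) = r • h.basis 0 + s • h.basis 1 + t • h.basis 2 := by
    rw [h.basis_apply, h.basis_apply, h.basis_apply]
    simp [Pool.Agent.N922.PQ.vec, Rat.smul_def]
  rw [e]
  unfold IsCub.co
  constructor <;> simp [map_add, map_smul, Module.Basis.coord_apply, Module.Basis.repr_self]

theorem co_mul (h : IsCub a b θ) (z : L) : h.co 2 (θ * z) = h.co 1 z := by
  obtain ⟨r, s, t, rfl⟩ := h.gen z
  rw [(co_eq h r s t).1]
  have hr := h.root
  have e : θ * ((r : L) + (s : L) * θ + (t : L) * θ ^ 2) =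
      (((-(t * b) : ℚ)) : L) + (((r - t * a : ℚ)) : L) * θ + ((s : ℚ) : L) * θ ^ 2 := by
    push_cast
    linear_combination (t : L) * hr
  rw [e, (co_eq h _ _ _).2]

theorem chr : Pool.Agent.H458.AR.S_CHR := by
  intro L _ _ a b θ h α e hα hli G B hG hB
  -- the basis
  have hcard : Fintype.card (Fin 3) = Module.finrank ℚ L := by rw [h.rank]; rfl
  have : FiniteDimensional ℚ L := h.fin
  let E : Module.Basis (Fin 3) ℚ L := basisOfLinearIndependentOfCardEqFinrank hli hcard
  have hE : ∀ i, E i = e i := fun i => by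
    rw [coe_basisOfLinearIndependentOfCardEqFinrank]
  let f : L →ₗ[ℚ] L := LinearMap.mulLeft ℚ θ
  let M : Matrix (Fin 3) (Fin 3) ℚ := LinearMap.toMatrix E E f
  have hM : ∀ j, θ * e j = ∑ i, M i j • e i := by
    intro j
    have h1 := E.sum_repr (f (E j))
    have h2 : f (E j) = θ * e j := by rw [hE]; rfl
    rw [← h2, ← h1]
    refine Finset.sum_congr rfl fun i _ => ?_
    have h3 : M i j = E.repr (f (E j)) i := LinearMap.toMatrix_apply E E f i j
    rw [h3, hE i]
  -- `B = G M`
  have hGM : B.map (Int.castRingHom ℚ) = G.map (Int.castRingHom ℚ) * M := by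
    ext i j
    rw [Matrix.mul_apply]
    simp only [Matrix.map_apply, eq_intCast]
    rw [hB i j, ← co_mul h]
    have e1 : θ * (e i * e j / α) = ∑ k, M k j • (e i * e k / α) := by
      have : θ * (e i * e j / α) = e i / α * (θ * e j) := by ring
      rw [this, hM j, Finset.mul_sum]
      refine Finset.sum_congr rfl fun k _ => ?_
      rw [mul_smul_comm]
      congr 1
      ring
    rw [e1, map_sum]
    refine Finset.sum_congr rfl fun k _ => ?_
    rw [map_smul, hG i k, smul_eq_mul, mul_comm]
  -- the characteristic polynomial of `M`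
  have hchar : M.charpoly = ff ℚ a b := by
    have h1 : M.charpoly = f.charpoly := LinearMap.charpoly_toMatrix f E
    rw [h1]
    have hm := f.charpoly_monic
    have hd : f.charpoly.natDegree = 3 := by rw [LinearMap.charpoly_natDegree, h.rank]
    have h0 : aeval θ f.charpoly = 0 := by
      have h2 := LinearMap.aeval_self_charpoly f
      have h3 : aeval f f.charpoly = LinearMap.mulLeft ℚ (aeval θ f.charpoly) := by
        have h4 : f = Algebra.lmul ℚ L θ := rfl
        have h5 := Polynomial.aeval_algHom_apply (Algebra.lmul ℚ L) θ f.charpoly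
        rw [← h4] at h5
        exact h5
      rw [h3] at h2
      have h6 := congrArg (fun g : L →ₗ[ℚ] L => g 1) h2
      simpa using h6
    have hdvd : minpoly ℚ θ ∣ f.charpoly := minpoly.dvd _ _ h0
    rw [h.minpoly_eq] at hdvd
    exact (Polynomial.eq_of_monic_of_dvd_of_natDegree_le (ff_monic ℚ a b) hm hdvd (by rw [hd, ff_deg]))
  unfold ChR
  apply Polynomial.map_injective (Int.castRingHom ℚ) Int.cast_injective
  rw [← Polynomial.coe_mapRingHom, RingHom.map_det, map_mul]
  have e2 : (mapRingHom (Int.castRingHom ℚ)).mapMatrix ((X : ℤ[X]) • G.map (C : ℤ →+* ℤ[X]) - B.map (C : ℤ →+* ℤ[X]))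
      = (G.map (Int.castRingHom ℚ)).map (C : ℚ →+* ℚ[X]) * M.charmatrix := by
    have e3 : (G.map (Int.castRingHom ℚ)).map (C : ℚ →+* ℚ[X]) * M.charmatrix =
        (X : ℚ[X]) • (G.map (Int.castRingHom ℚ)).map (C : ℚ →+* ℚ[X]) -
          (B.map (Int.castRingHom ℚ)).map (C : ℚ →+* ℚ[X]) := by
      rw [hGM, Matrix.map_mul]
      unfold Matrix.charmatrix
      rw [Matrix.mul_sub]
      congr 1
      rw [Matrix.scalar_apply, ← Matrix.smul_one_eq_diagonal, Matrix.mul_smul, Matrix.mul_one]
    rw [e3]
    ext i j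
    simp
  rw [e2, Matrix.det_mul]
  have e4 : M.charmatrix.det = ff ℚ a b := hchar
  rw [e4]
  congr 1
  · rw [← RingHom.mapMatrix_apply, ← RingHom.map_det, ← RingHom.mapMatrix_apply, ← RingHom.map_det]
    simp
  · simp [ff]

end Pool.Agent.H784.AR458
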